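import Pool.Agent.Helper77.CR.Defs2
import Pool.Agent.Helper77.ST.STw

/-!
# State sums over potentials: definitions

Only definitions.
-/

namespace Pool.Agent.Helper77.UN

open Finset
open Pool.Agent.Helper9.Kashaev (Piece Diagram)
open Pool.Agent.Helper9.FA (Item twists wfP labels)
open Pool.Agent.Helper9.TW (Lab Conn)
open Pool.Agent.Helper28.TX (PV Pot)
open Pool.Agent.Helper77.ST

/-- the state of the strand between regions with the values `x` and `y` -/
def stt (l : ℕ) (x y : ℤ) : ℕ := ((l : ℤ) - (y - x)).toNat

/-- the states of the strands -/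
def stw (l : ℕ) : List ℤ → List ℕ
  | x :: y :: r => stt l x y :: stw l (y :: r)
  | _ => []

/-- neighbours differ by at most `l` -/
def InR (l : ℕ) : List ℤ → Prop
  | x :: y :: r => |y - x| ≤ l ∧ InR l (y :: r)
  | _ => True

/-- the same at the corners of a vertex -/
def VR (l : ℕ) (q : PV ℤ) : Prop :=
  |q.B - q.L| ≤ l ∧ |q.R - q.B| ≤ l ∧ |q.T - q.L| ≤ l ∧ |q.R - q.T| ≤ l

variable {F : Type*} [Field F]

/-- the matrix entries of a twist region -/
noncomputable def tmx (P : Par F) (x : ℤ) (i j i' : ℕ) : F :=
  RT P (twists 0 x) (ket [i', i + j - i']) [i, j]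

/-- the weight of a vertex -/
noncomputable def wv (P : Par F) (x : ℤ) (q : PV ℤ) : F :=
  tmx P x (stt P.l q.L q.T) (stt P.l q.T q.R) (stt P.l q.L q.B)

/-- the weight of a minimum or maximum -/
noncomputable def we (P : Par F) (y : Bool × ℤ × ℤ) : F :=
  if y.1 = true then cupC P (stt P.l y.2.1 y.2.2) else capC P (stt P.l y.2.1 y.2.2)

open Classical in
/-- The finite set of the potentials with the values `s` at the bottom and `k`, `k + l` at the top, such
that neighbouring values differ by at most `l`. -/
noncomputable def pots (l : ℕ) : List (Item Unit) → List ℤ →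
    Finset (List (PV ℤ) × List (Bool × ℤ × ℤ))
  | [], s => match s with
    | [x, y] => if y = x + l then {([], [])} else ∅
    | _ => ∅
  | .cup k :: P, s => match s.drop k with
    | x :: r => (Finset.Icc (x - l) (x + l)).biUnion fun m =>
      (pots l P (s.take k ++ x :: m :: x :: r)).image fun y => (y.1, (true, x, m) :: y.2)
    | _ => ∅
  | .cap k :: P, s => match s.drop k with
    | x :: m :: x' :: r => if x = x' then
      (pots l P (s.take k ++ x :: r)).image fun y => (y.1, (false, x, m) :: y.2) else ∅
    | _ => ∅
  | .box k _ :: P, s => match s.drop k with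
    | L :: B :: R :: r => ((Finset.Icc (L - l) (L + l)).filter fun T => |R - T| ≤ l).biUnion fun T =>
      (pots l P (s.take k ++ L :: T :: R :: r)).image fun y => (⟨L, B, R, T⟩ :: y.1, y.2)
    | _ => ∅

/-- the product of the weights -/
noncomputable def wt2 (P : Par F) (a : List ℤ) (y : List (PV ℤ) × List (Bool × ℤ × ℤ)) : F :=
  (List.zipWith (wv P) a y.1).prod * (y.2.map (we P)).prod

/-- the product of the half weights of the lower strands minus that of the upper strands -/
def dvx (q : PV ℤ) : ℤ := (q.B - q.L) * (q.R - q.B) - (q.T - q.L) * (q.R - q.T)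

/-- the exponent of the minima and maxima -/
def sE (e : List (Bool × ℤ × ℤ)) : ℤ := (e.map fun y => y.2.2 - y.2.1).sum

end Pool.Agent.Helper77.UN
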