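import Pool.Agent.Helper77.UN.NORM
import Pool.Agent.Helper47.UN.EQ
import Pool.Agent.Helper77.ST.Final

/-!
# Uniform constants for sufficiently twisted knots
-/

namespace Pool.Agent.Helper77.UN

open Finset
open Pool.Agent.Helper9.Kashaev (Piece Diagram)
open Pool.Agent.Helper9.FA (Item Cor Ang twists wfP labels Ang_length Ang_wf)
open Pool.Agent.Helper9.TW (Lab Conn)
open Pool.Agent.Helper28.TX (PV Pot)
open Pool.Agent.Helper77.ST
open Pool.Agent.Helper77.CR (Uni All ids cor mE EU ncup ncap bz Red)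

/-! ### module UN-FIN (helper77) -/

theorem heval (l : ℕ) (hl : 1 ≤ l) (v : ℝ) (hv : 1 < v) (hv0 : v ≠ 0) (D : Diagram) :
    LaurentPolynomial.eval₂ (algebraMap ℚ ℝ) (Units.mk0 v hv0) (Gv l tU D) =
      RT (gtPar l hl v hv) D (ket [0]) [0] * RT (gtPar l hl v hv).inv D (ket [0]) [0] := by
  rw [map_Gv]
  have hu : Units.map (LaurentPolynomial.eval₂ (algebraMap ℚ ℝ) (Units.mk0 v hv0) :
      LaurentPolynomial ℚ →* ℝ) tU = (gtPar l hl v hv).u := by
    ext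
    change LaurentPolynomial.eval₂ (algebraMap ℚ ℝ) (Units.mk0 v hv0) (LaurentPolynomial.T 1) = v
    rw [LaurentPolynomial.eval₂_T]
    simp
  rw [hu]
  exact Gv_eq (gtPar l hl v hv) D

theorem Gv_eq_of {S S' : List (Item Unit)} (hc : Conn S) (hc' : Conn S') {c0 c1 : ℕ}
    {θ : List (PV ℕ)} {e e' : List (Bool × ℕ × ℕ)} (hU : Uni S c0 c1 [c0, c1] θ e)
    (hU' : Uni S' c0 c1 [c0, c1] θ e') (h0 : θ ≠ []) {a : List ℤ} (ha : a.length = θ.length)
    {l : ℕ} (hl : 1 ≤ l) : Gv l tU (tw S a) = Gv l tU (tw S' a) := by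
  apply laurent_real
  intro v hv0 hv
  rw [heval l hl v hv hv0, heval l hl v hv hv0, RT_eq (gtPar l hl v hv) hc hc' hU hU' h0 ha,
    RT_eq (gtPar l hl v hv).inv hc hc' hU hU' h0 ha]

theorem main_coef (S : List (Item Unit)) (cs : List (Cor ℝ)) (hA : Ang S [0, 0] cs)
    (hs : ∀ c ∈ cs, c.Strict) (hne : cs ≠ []) (K : Diagram) :
    ∃ (C : ℕ) (X : Finset ({l : ℕ // 1 ≤ l} × ℕ)), ∀ a : List ℤ, a.length = cs.length →
      (∀ x ∈ a, C ≤ x.natAbs) → ∃ x ∈ X, PowerSeries.coeff x.2 (Gv x.1.1 psU (tw S a)) ≠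
        PowerSeries.coeff x.2 (Gv x.1.1 psU K) := by
  classical
  obtain ⟨C, hC⟩ := exists_level S cs hA hs hne K
  have hlen : cs.length = (labels S).length := Ang_length hA
  have hwf : wfP 1 S 1 := by
    have := (Ang_wf hA).2
    simpa using this
  set n := (labels S).length with hn
  -- finitely many equations for each class modulo `2`
  have hF : ∀ σ : Fin n → Fin 2, ∃ F : Finset ({l : ℕ // 1 ≤ l} × ℕ), ∀ y : Fin n → ℤ,
      (∀ x ∈ F, PowerSeries.coeff x.2 (Gv x.1.1 psU (tw S (List.ofFn fun i =>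
        ((σ i : ℕ) : ℤ) + 2 * y i))) = PowerSeries.coeff x.2 (Gv x.1.1 psU K)) →
      ∀ x : {l : ℕ // 1 ≤ l} × ℕ, PowerSeries.coeff x.2 (Gv x.1.1 psU (tw S (List.ofFn fun i =>
        ((σ i : ℕ) : ℤ) + 2 * y i))) = PowerSeries.coeff x.2 (Gv x.1.1 psU K) := by
    intro σ
    choose p hp using fun x : {l : ℕ // 1 ≤ l} × ℕ =>
      coeff_poly x.1.1 x.1.2 x.2 S hwf (fun i => ((σ i : ℕ) : ℤ))
    obtain ⟨F, hF⟩ := exists_finite_eqs (fun x : {l : ℕ // 1 ≤ l} × ℕ =>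
      p x - MvPolynomial.C (PowerSeries.coeff x.2 (Gv x.1.1 psU K)))
    refine ⟨F, fun y hy x => ?_⟩
    have h1 := hF (fun i => (y i : ℚ)) (by
      intro x hx
      rw [map_sub, MvPolynomial.eval_C, ← hp, hy x hx, sub_self]) x
    rw [map_sub, MvPolynomial.eval_C, ← hp, sub_eq_zero] at h1
    exact h1
  choose F hF using hF
  refine ⟨C, univ.biUnion F, fun a ha1 ha2 => ?_⟩
  obtain ⟨l, hl, hne'⟩ := hC a ha1 ha2
  have hal : a.length = n := by rw [ha1, hlen]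
  set b : Fin n → ℤ := fun i => a.get (Fin.cast hal.symm i) with hb
  have e : List.ofFn b = a := by
    apply List.ext_get
    · simp [hal]
    · intro i h1 h2
      simp [hb]
  have hσ : ∀ i, (b i % 2).toNat < 2 := fun i => by omega
  set σ : Fin n → Fin 2 := fun i => ⟨(b i % 2).toNat, hσ i⟩ with hσ'
  have e2 : (fun i => ((σ i : ℕ) : ℤ) + 2 * (b i / 2)) = b := by
    funext i
    simp only [hσ']
    omega
  by_contra hcon
  push Not at hcon
  apply hne'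
  apply laurent_ps
  rw [map_Gv, map_Gv, eval_tU]
  ext j
  have h2 := hF σ (fun i => b i / 2) (by
    intro x hx
    rw [e2, e]
    exact hcon x (Finset.mem_biUnion.mpr ⟨σ, mem_univ σ, hx⟩)) (⟨l, hl⟩, j)
  rw [e2, e] at h2
  exact h2

theorem uniform (hred : ∀ {S : List (Item Unit)}, wfP 1 S 1 → Red S →
      ∃ cs, Ang S [0, 0] cs ∧ ∀ c ∈ cs, c.Strict)
    (hconn : ∀ {S : List (Item Unit)}, Red S → Conn S)
    (m : ℕ) (hm : 1 ≤ m) (K : Diagram) : ∃ C d : ℕ, ∀ S : List (Item Unit), wfP 1 S 1 → Red S →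
      (labels S).length = m → ∀ a : List ℤ, a.length = m → (∀ x ∈ a, C ≤ x.natAbs) →
      ∃ I, IsVassiliev d I ∧ I (tw S a) ≠ I K := by
  classical
  set T : Set (List (PV ℕ)) := {θ | θ.length = m ∧ ∀ q ∈ θ, ∀ x ∈ cor q, x < m + 2} with hT
  have hfin : T.Finite := finite_theta m
  have key : ∀ θ : List (PV ℕ), ∃ (C : ℕ) (X : Finset ({l : ℕ // 1 ≤ l} × ℕ)),
      ∀ S : List (Item Unit), wfP 1 S 1 → Red S → (labels S).length = m →
      (∃ e, Uni S 0 1 [0, 1] θ e) → ∀ a : List ℤ, a.length = m → (∀ x ∈ a, C ≤ x.natAbs) →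
      ∃ x ∈ X, PowerSeries.coeff x.2 (Gv x.1.1 psU (tw S a)) ≠
        PowerSeries.coeff x.2 (Gv x.1.1 psU K) := by
    intro θ
    by_cases h : ∃ S : List (Item Unit), wfP 1 S 1 ∧ Red S ∧ (labels S).length = m ∧
      ∃ e, Uni S 0 1 [0, 1] θ e
    · obtain ⟨S0, h1, h2, h3, e0, h4⟩ := h
      obtain ⟨cs, hA, hs⟩ := hred h1 h2
      have hl : cs.length = m := by rw [Ang_length hA, h3]
      have hne : cs ≠ [] := by
        rintro rfl
        simp at hl
        omega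
      obtain ⟨C, X, hX⟩ := main_coef S0 cs hA hs hne K
      refine ⟨C, X, fun S g1 g2 g3 ⟨e, g4⟩ a ha1 ha2 => ?_⟩
      obtain ⟨x, hx, hne'⟩ := hX a (by rw [ha1, hl]) ha2
      refine ⟨x, hx, ?_⟩
      have hθ : θ.length = m := by rw [Pool.Agent.Helper77.CR.pot_len g4.pot, g3]
      have h0 : θ ≠ [] := by
        rintro rfl
        simp at hθ
        omega
      have h5 := Gv_eq_of (hconn g2) (hconn h2) g4 h4 h0 (a := a) (by rw [ha1, hθ]) x.1.2
      have h6 := congrArg (LaurentPolynomial.eval₂ (algebraMap ℚ (PowerSeries ℚ)) psU) h5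
      rw [map_Gv, map_Gv, eval_tU] at h6
      rw [h6]
      exact hne'
    · exact ⟨0, ∅, fun S g1 g2 g3 g4 => (h ⟨S, g1, g2, g3, g4⟩).elim⟩
  choose C X hX using key
  refine ⟨hfin.toFinset.sup C, hfin.toFinset.sup fun θ => (X θ).sup Prod.snd,
    fun S g1 g2 g3 a ha1 ha2 => ?_⟩
  obtain ⟨θ, e, hU, hlt⟩ := exists_norm g1 (hconn g2)
  have hθ : θ.length = m := by rw [Pool.Agent.Helper77.CR.pot_len hU.pot, g3]
  rw [g3] at hlt
  have hmem : θ ∈ hfin.toFinset := by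
    rw [Set.Finite.mem_toFinset]
    exact ⟨hθ, hlt⟩
  obtain ⟨x, hx, hne⟩ := hX θ S g1 g2 g3 ⟨e, hU⟩ a ha1 (fun y hy =>
    (Finset.le_sup (f := C) hmem).trans (ha2 y hy))
  refine ⟨_, (isVassiliev x.1.1 x.1.2 x.2).mono ?_, hne⟩
  exact (Finset.le_sup (f := Prod.snd) hx).trans
    (Finset.le_sup (f := fun θ => (X θ).sup Prod.snd) hmem)

end Pool.Agent.Helper77.UN
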