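import Pool.Agent.Helper77.ST.Defs
import Pool.Agent.Helper77.CR.INST

/-! The hypotheses of the theorem on sufficiently twisted knots are satisfiable. -/

namespace Pool.Agent.Helper77.UN

open Pool.Agent.Helper77.CR (bor Red red_bor)
open Pool.Agent.Helper9.FA (wfP labels twists)

theorem hypotheses_satisfiable : wfP 1 bor 1 ∧ Red bor ∧ (labels bor).length = 2 ∧
    Pool.Agent.Helper77.ST.IsKnot (Pool.Agent.Helper77.ST.tw bor [2, -2]) := by
  refine ⟨by simp [wfP, bor], red_bor, rfl, ?_⟩
  simp [Pool.Agent.Helper77.ST.IsKnot, bor, Pool.Agent.Helper77.ST.tw, twists,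
    Pool.Agent.Helper77.ST.Arc, List.replicate_succ]

end Pool.Agent.Helper77.UN
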