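import Pool.Agent.Helper77.UN.Defs
import Pool.Agent.Helper57.CR.CNT
import Pool.Agent.Helper40.CR.UNI

/-!
# Normalized names of the regions
-/

namespace Pool.Agent.Helper77.UN

open Finset
open Pool.Agent.Helper9.FA (Item Cor Ang twists wfP labels)
open Pool.Agent.Helper9.TW (Lab Conn)
open Pool.Agent.Helper28.TX (PV Pot)
open Pool.Agent.Helper77.CR (Uni All ids cor mE EU ncup ncap)

/-- renaming of a universal potential -/
theorem uni_rename {α : Type} {P : List (Item α)} {c0 c1 : ℕ} {c : List ℕ} {θ : List (PV ℕ)}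
    {e : List (Bool × ℕ × ℕ)} (hU : Uni P c0 c1 c θ e) {ρ : ℕ → ℕ}
    (hρ : Set.InjOn ρ (ids (c0 :: c1 :: c) θ e : Set ℕ)) :
    Uni P (ρ c0) (ρ c1) (c.map ρ) (θ.map (PV.map ρ)) (mE ρ e) := by
  classical
  set g := Function.invFunOn ρ (ids (c0 :: c1 :: c) θ e : Set ℕ) with hg
  have hgi : ∀ x ∈ ids (c0 :: c1 :: c) θ e, g (ρ x) = x := fun x hx =>
    hρ.leftInvOn_invFunOn (by simpa using hx)
  have m0 : c0 ∈ ids (c0 :: c1 :: c) θ e := by simp [ids]
  have m1 : c1 ∈ ids (c0 :: c1 :: c) θ e := by simp [ids]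
  have mc : ∀ x ∈ c, x ∈ ids (c0 :: c1 :: c) θ e := fun x hx => by simp [ids, hx]
  have mθ : ∀ q ∈ θ, ∀ x ∈ cor q, x ∈ ids (c0 :: c1 :: c) θ e := by
    intro q hq x hx
    simp only [ids, List.mem_toFinset, List.mem_append, List.mem_flatMap]
    exact Or.inl (Or.inr ⟨q, hq, hx⟩)
  have me : ∀ y ∈ e, y.2.1 ∈ ids (c0 :: c1 :: c) θ e ∧ y.2.2 ∈ ids (c0 :: c1 :: c) θ e := by
    intro y hy
    simp only [ids, List.mem_toFinset, List.mem_append, List.mem_flatMap]
    exact ⟨Or.inr ⟨y, hy, by simp⟩, Or.inr ⟨y, hy, by simp⟩⟩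
  refine ⟨Pool.Agent.Helper77.CR.pot_map ρ hU.pot, ?_, ?_⟩
  · intro K k0 k1 c' θ' e' hp
    obtain ⟨h, h0, h1, hc, hθ, he⟩ := hU.uni K k0 k1 c' θ' e' hp
    refine ⟨h ∘ g, ?_, ?_, ?_, ?_, ?_⟩
    · simp only [Function.comp, hgi c0 m0, h0]
    · simp only [Function.comp, hgi c1 m1, h1]
    · rw [hc, List.map_map]
      refine List.map_congr_left fun x hx => ?_
      simp only [Function.comp, hgi x (mc x hx)]
    · rw [hθ, List.map_map]
      refine List.map_congr_left fun q hq => ?_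
      have h1 := hgi q.L (mθ q hq _ (by simp [cor]))
      have h2 := hgi q.B (mθ q hq _ (by simp [cor]))
      have h3 := hgi q.R (mθ q hq _ (by simp [cor]))
      have h4 := hgi q.T (mθ q hq _ (by simp [cor]))
      simp only [Function.comp, PV.map, h1, h2, h3, h4]
    · rw [he]
      unfold mE
      rw [List.map_map]
      refine List.map_congr_left fun y hy => ?_
      simp only [Function.comp, hgi _ (me y hy).1, hgi _ (me y hy).2]
  · have h1 : ids (ρ c0 :: ρ c1 :: c.map ρ) (θ.map (PV.map ρ)) (mE ρ e) =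
        (ids (c0 :: c1 :: c) θ e).image ρ := by
      ext x
      simp only [ids, mE, List.mem_toFinset, List.mem_append, List.mem_flatMap, List.mem_map,
        Finset.mem_image, List.mem_cons, cor, PV.map]
      constructor
      · rintro ((h | ⟨q, ⟨q', hq', rfl⟩, hx⟩) | ⟨y, ⟨y', hy', rfl⟩, hx⟩)
        · rcases h with h | h | ⟨a, ha, rfl⟩
          · exact ⟨c0, by simp, h.symm⟩
          · exact ⟨c1, by simp, h.symm⟩
          · exact ⟨a, by simp [ha], rfl⟩
        · simp only [List.mem_cons, List.not_mem_nil, or_false] at hx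
          rcases hx with h | h | h | h
          · exact ⟨q'.L, Or.inl (Or.inr ⟨q', hq', by simp⟩), h.symm⟩
          · exact ⟨q'.B, Or.inl (Or.inr ⟨q', hq', by simp⟩), h.symm⟩
          · exact ⟨q'.R, Or.inl (Or.inr ⟨q', hq', by simp⟩), h.symm⟩
          · exact ⟨q'.T, Or.inl (Or.inr ⟨q', hq', by simp⟩), h.symm⟩
        · simp only [List.not_mem_nil, or_false] at hx
          rcases hx with h | h
          · exact ⟨y'.2.1, Or.inr ⟨y', hy', by simp⟩, h.symm⟩
          · exact ⟨y'.2.2, Or.inr ⟨y', hy', by simp⟩, h.symm⟩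
      · rintro ⟨a, ((h | ⟨q, hq, hx⟩) | ⟨y, hy, hx⟩), rfl⟩
        · rcases h with h | h | h
          · subst h; exact Or.inl (Or.inl (Or.inl rfl))
          · subst h; exact Or.inl (Or.inl (Or.inr (Or.inl rfl)))
          · exact Or.inl (Or.inl (Or.inr (Or.inr ⟨a, h, rfl⟩)))
        · refine Or.inl (Or.inr ⟨_, ⟨q, hq, rfl⟩, ?_⟩)
          simp only [List.mem_cons, List.not_mem_nil, or_false] at hx ⊢
          rcases hx with h | h | h | h <;> simp [h]
        · refine Or.inr ⟨_, ⟨y, hy, rfl⟩, ?_⟩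
          simp only [List.not_mem_nil, or_false] at hx ⊢
          rcases hx with h | h <;> simp [h]
    have h2 : ((ids (c0 :: c1 :: c) θ e).image ρ).card = (ids (c0 :: c1 :: c) θ e).card :=
      Finset.card_image_of_injOn (by simpa using hρ)
    have h3 : ncap (mE ρ e) = ncap e := by
      unfold ncap mE
      rw [List.filter_map, List.length_map]
      rfl
    have h4 : ncup (mE ρ e) = ncup e := by
      unfold ncup mE
      rw [List.filter_map, List.length_map]
      rfl
    rw [h1, h2, h3, h4, List.length_map]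
    exact hU.card

theorem exists_norm {S : List (Item Unit)} (hS : wfP 1 S 1) (hc : Conn S) :
    ∃ (θ : List (PV ℕ)) (e : List (Bool × ℕ × ℕ)), Uni S 0 1 [0, 1] θ e ∧
      ∀ q ∈ θ, ∀ x ∈ cor q, x < (labels S).length + 2 := by
  classical
  obtain ⟨c0, c1, c, θ, e, hU, hlc⟩ := Pool.Agent.Helper77.CR.exists_uni_len hS
  have hcc : c = [c0, c1] := by
    obtain ⟨h1, h2⟩ := Pool.Agent.Helper77.CR.pot_edge hU.pot
    match c, hlc with
    | [x, y], _ =>
      simp at h1 h2
      rw [h1, h2]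
  subst hcc
  have hne := Pool.Agent.Helper77.CR.uni_ne hc hU
  have hcard := (Pool.Agent.Helper77.CR.count_all hc hU).1
  rw [Pool.Agent.Helper77.CR.pot_len hU.pot] at hcard
  set V := (labels S).length with hV
  let φ := (All c0 c1 θ e).equivFin
  let ρ : ℕ → ℕ := fun x => if x = c0 then 0 else if x = c1 then 1 else
    if h : x ∈ All c0 c1 θ e then 2 + (φ ⟨x, h⟩ : ℕ) else V + 2
  have hsub : ∀ x ∈ ids (c0 :: c1 :: [c0, c1]) θ e, x = c0 ∨ x = c1 ∨ x ∈ All c0 c1 θ e := by
    intro x hx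
    by_cases h0 : x = c0
    · exact Or.inl h0
    by_cases h1 : x = c1
    · exact Or.inr (Or.inl h1)
    right; right
    simp only [All, Finset.mem_filter]
    refine ⟨?_, h0, h1⟩
    simpa [ids] using hx
  have hA : ∀ x (h : x ∈ All c0 c1 θ e), ρ x = 2 + (φ ⟨x, h⟩ : ℕ) := by
    intro x h
    have h' := h
    simp only [All, Finset.mem_filter] at h'
    simp only [ρ, h'.2.1, h'.2.2, if_false, dif_pos h]
  have h0 : ρ c0 = 0 := by simp [ρ]
  have h1 : ρ c1 = 1 := by simp [ρ, hne.symm]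
  have hinj : Set.InjOn ρ (ids (c0 :: c1 :: [c0, c1]) θ e : Set ℕ) := by
    intro x hx y hy hxy
    rcases hsub x hx with rfl | rfl | hx'
    · rcases hsub y hy with rfl | rfl | hy'
      · rfl
      · rw [h0, h1] at hxy; omega
      · rw [h0, hA y hy'] at hxy; omega
    · rcases hsub y hy with rfl | rfl | hy'
      · rw [h0, h1] at hxy; omega
      · rfl
      · rw [h1, hA y hy'] at hxy; omega
    · rcases hsub y hy with rfl | rfl | hy'
      · rw [h0, hA x hx'] at hxy; omega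
      · rw [h1, hA x hx'] at hxy; omega
      · rw [hA x hx', hA y hy'] at hxy
        have h2 : φ ⟨x, hx'⟩ = φ ⟨y, hy'⟩ := Fin.ext (by omega)
        have h3 := φ.injective h2
        exact congrArg Subtype.val h3
  have hU' := uni_rename hU hinj
  rw [h0, h1] at hU'
  simp only [List.map_cons, List.map_nil, h0, h1] at hU'
  refine ⟨_, _, hU', ?_⟩
  intro q hq x hx
  obtain ⟨q', hq', rfl⟩ := List.mem_map.mp hq
  have hx' : ∃ y ∈ cor q', x = ρ y := by
    simp only [cor, PV.map, List.mem_cons, List.not_mem_nil, or_false] at hx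
    rcases hx with h | h | h | h
    · exact ⟨q'.L, by simp [cor], h⟩
    · exact ⟨q'.B, by simp [cor], h⟩
    · exact ⟨q'.R, by simp [cor], h⟩
    · exact ⟨q'.T, by simp [cor], h⟩
  obtain ⟨y, hy, rfl⟩ := hx'
  have hyi : y ∈ ids (c0 :: c1 :: [c0, c1]) θ e := by
    simp only [ids, List.mem_toFinset, List.mem_append, List.mem_flatMap]
    exact Or.inl (Or.inr ⟨q', hq', hy⟩)
  rcases hsub y hyi with rfl | rfl | h
  · rw [h0]; omega
  · rw [h1]; omega
  · rw [hA y h]
    have := (φ ⟨y, h⟩).2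
    omega

theorem finite_theta (m : ℕ) :
    {θ : List (PV ℕ) | θ.length = m ∧ ∀ q ∈ θ, ∀ x ∈ cor q, x < m + 2}.Finite := by
  classical
  let f : (Fin m → (Fin (m + 2) × Fin (m + 2)) × (Fin (m + 2) × Fin (m + 2))) → List (PV ℕ) :=
    fun g => List.ofFn fun i => ⟨(g i).1.1, (g i).1.2, (g i).2.1, (g i).2.2⟩
  refine (Set.finite_range f).subset ?_
  rintro θ ⟨hl, hx⟩
  subst hl
  have hc : ∀ i : Fin θ.length, θ[i].L < θ.length + 2 ∧ θ[i].B < θ.length + 2 ∧
      θ[i].R < θ.length + 2 ∧ θ[i].T < θ.length + 2 := by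
    intro i
    have h := hx θ[i] (List.getElem_mem i.2)
    exact ⟨h _ (by simp [cor]), h _ (by simp [cor]), h _ (by simp [cor]), h _ (by simp [cor])⟩
  have hg : f (fun i => ((⟨θ[i].L, (hc i).1⟩, ⟨θ[i].B, (hc i).2.1⟩),
      (⟨θ[i].R, (hc i).2.2.1⟩, ⟨θ[i].T, (hc i).2.2.2⟩))) = θ := by
    apply List.ext_getElem
    · simp [f]
    · intro i h1 h2
      simp [f]
  exact ⟨_, hg⟩

end Pool.Agent.Helper77.UN
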